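import Pool.Agent.Work.MP_c9f990_an.Rg.StR

set_option autoImplicit false

/-!
# MP_c9f990_an, block RG, item INJ
-/

open MeasureTheory Set Filter Topology
open scoped NNReal ENNReal

namespace Pool.Agent.Work.MP_c9f990_an.Al

namespace I_INJX

variable {N n K : ℕ}

theorem csX : ContinuousSMul ℝ (XX N n) := IsBoundedSMul.continuousSMul

local instance csXX : ContinuousSMul ℝ (XX N n) := csX

lemma ofL_apply (u : XX N n) (i : Fin N) : (ofL N n u) i = u i := rfl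

lemma cj_apply (A : C N n →L[ℝ] C N n) (u : XX N n) (i : Fin N) :
    (cj A u) i = A (ofL N n u) i := rfl

lemma norm_le_sum (u : XX N n) : ‖u‖ ≤ ∑ i, ‖u i‖ := by
  have h1 : ‖u‖ ^ 2 = ∑ i, ‖u i‖ ^ 2 := PiLp.norm_sq_eq_of_L2 _ u
  have h2 : ∑ i, ‖u i‖ ^ 2 ≤ (∑ i, ‖u i‖) ^ 2 :=
    Finset.sum_sq_le_sq_sum_of_nonneg (fun i _ => norm_nonneg _)
  have h3 : 0 ≤ ∑ i, ‖u i‖ := Finset.sum_nonneg (fun i _ => norm_nonneg _)
  rw [← h1] at h2
  exact (pow_le_pow_iff_left₀ (norm_nonneg _) h3 two_ne_zero).mp h2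

lemma norm_le_comp (u : XX N n) (i : Fin N) : ‖u i‖ ≤ ‖u‖ := PiLp.norm_apply_le u i

lemma sub_bound (u : XX N n) (i j : Fin N) : ‖u i - u j‖ ≤ 2 * ‖u‖ := by
  have h1 := norm_sub_le (u i) (u j)
  have h2 := norm_le_comp u i
  have h3 := norm_le_comp u j
  linarith

lemma LpC_apply (Φ : E n → ℝ) (cl : Fin N → Fin K) (x u : C N n) (i : Fin N) :
    LpC Φ cl x u i = (N : ℝ)⁻¹ • ∑ j, if cl i = cl j then Φ (x i - x j) • (u i - u j) else 0 := by
  unfold LpC
  simp only [ContinuousLinearMap.coe_pi', _root_.smul_apply,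
    _root_.sum_apply]
  congr 1
  apply Finset.sum_congr rfl
  intro j _
  split_ifs <;> rfl

lemma muL_apply (cl : Fin N → Fin K) (v : C N n) : muL cl v = mu cl v := by
  funext a
  unfold muL mu
  simp only [ContinuousLinearMap.coe_pi', _root_.smul_apply, _root_.sum_apply]
  rfl

lemma cnt_pos {cl : Fin N → Fin K} (hs : Function.Surjective cl) (a : Fin K) :
    (0 : ℝ) < cnt cl a := by
  obtain ⟨i, hi⟩ := hs a
  unfold cnt
  exact_mod_cast Finset.card_pos.mpr ⟨i, Finset.mem_filter.mpr ⟨Finset.mem_univ i, hi⟩⟩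

lemma mu_io {cl : Fin N → Fin K} (hs : Function.Surjective cl) (τ : Fin K → E n) :
    mu cl (ioL cl τ) = τ := by
  funext a
  unfold mu
  have h1 : ∑ i ∈ Finset.univ.filter (fun i => cl i = a), (ioL cl τ) i =
      ∑ _i ∈ Finset.univ.filter (fun i => cl i = a), τ a := by
    apply Finset.sum_congr rfl
    intro i hi
    have h2 := (Finset.mem_filter.mp hi).2
    show τ (cl i) = τ a
    rw [h2]
  rw [h1, Finset.sum_const, ← Nat.cast_smul_eq_nsmul ℝ, smul_smul]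
  have h3 : (cnt cl a : ℝ)⁻¹ * ((Finset.univ.filter (fun i => cl i = a)).card : ℝ) = 1 := by
    have h4 := cnt_pos hs a
    unfold cnt at h4 ⊢
    exact inv_mul_cancel₀ h4.ne'
  rw [h3, one_smul]

lemma inner_mu {cl : Fin N → Fin K} (hs : Function.Surjective cl) (x y : C N n) :
    ∑ i, inner ℝ (mu cl x (cl i)) (y i) =
      ∑ a, (cnt cl a : ℝ) * inner ℝ (mu cl x a) (mu cl y a) := by
  rw [← Finset.sum_fiberwise Finset.univ cl]
  apply Finset.sum_congr rfl
  intro a _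
  have h1 : ∑ i ∈ Finset.univ.filter (fun i => cl i = a), inner ℝ (mu cl x (cl i)) (y i) =
      ∑ i ∈ Finset.univ.filter (fun i => cl i = a), inner ℝ (mu cl x a) (y i) := by
    apply Finset.sum_congr rfl
    intro i hi
    rw [(Finset.mem_filter.mp hi).2]
  rw [h1, ← inner_sum]
  have h2 : ∑ i ∈ Finset.univ.filter (fun i => cl i = a), y i = (cnt cl a : ℝ) • mu cl y a := by
    unfold mu
    rw [smul_smul, mul_inv_cancel₀ (cnt_pos hs a).ne', one_smul]
  rw [h2, real_inner_smul_right]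

lemma symm_sum (c : Fin N → Fin N → ℝ) (hc : ∀ i j, c i j = c j i) (x y : Fin N → E n) :
    ∑ i, ∑ j, c i j * inner ℝ (x i - x j) (y i) =
      2⁻¹ * ∑ i, ∑ j, c i j * inner ℝ (x i - x j) (y i - y j) := by
  have h1 : ∑ i, ∑ j, c i j * inner ℝ (x i - x j) (y i) =
      ∑ i, ∑ j, c i j * inner ℝ (x j - x i) (y j) := by
    conv_lhs => rw [Finset.sum_comm]
    apply Finset.sum_congr rfl
    intro i _
    apply Finset.sum_congr rfl
    intro j _
    rw [hc]
  have h2 : ∑ i, ∑ j, c i j * inner ℝ (x i - x j) (y i - y j) =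
      ∑ i, ∑ j, c i j * inner ℝ (x i - x j) (y i) +
      ∑ i, ∑ j, c i j * inner ℝ (x j - x i) (y j) := by
    rw [← Finset.sum_add_distrib]
    apply Finset.sum_congr rfl
    intro i _
    rw [← Finset.sum_add_distrib]
    apply Finset.sum_congr rfl
    intro j _
    rw [inner_sub_right, ← neg_sub (x i) (x j), inner_neg_left]
    ring
  rw [h2, ← h1]
  ring

lemma inner_Lp (Φ : E n → ℝ) (hΦ : Kernel Φ) (cl : Fin N → Fin K) (p : C N n) (x y : XX N n) :
    inner ℝ (cj (LpC Φ cl p) x) y = (2 * N : ℝ)⁻¹ * ∑ i, ∑ j, if cl i = cl j then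
      Φ (p i - p j) * inner ℝ (x i - x j) (y i - y j) else 0 := by
  rw [PiLp.inner_apply]
  have h1 : ∀ i, inner ℝ ((cj (LpC Φ cl p) x) i) (y i) = (N : ℝ)⁻¹ *
      ∑ j, (if cl i = cl j then Φ (p i - p j) else 0) * inner ℝ (x i - x j) (y i) := by
    intro i
    rw [cj_apply, LpC_apply, real_inner_smul_left, sum_inner]
    congr 1
    apply Finset.sum_congr rfl
    intro j _
    split_ifs
    · rw [real_inner_smul_left]; rfl
    · rw [inner_zero_left, zero_mul]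
  simp only [h1]
  rw [← Finset.mul_sum, symm_sum (fun i j => if cl i = cl j then Φ (p i - p j) else 0)]
  · rw [← mul_assoc]
    have h2 : (N : ℝ)⁻¹ * 2⁻¹ = (2 * N : ℝ)⁻¹ := by
      rw [mul_inv]; ring
    rw [h2]
    congr 1
    apply Finset.sum_congr rfl
    intro i _
    apply Finset.sum_congr rfl
    intro j _
    split_ifs
    · rfl
    · rw [zero_mul]
  · intro i j
    by_cases h : cl i = cl j
    · rw [if_pos h, if_pos h.symm, ← hΦ.even (p j - p i), neg_sub]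
    · rw [if_neg h, if_neg (fun h' => h h'.symm)]

lemma Phi_le_qI (Φ : E n → ℝ) (hΦ : Kernel Φ) (cl : Fin N → Fin K) (x : C N n) (i j : Fin N)
    (hij : cl i ≠ cl j) : Φ (x i - x j) ≤ qI Φ cl x := by
  have h0 : ∀ i j : Fin N, 0 ≤ (if cl i = cl j then (0 : ℝ) else Φ (x i - x j)) := by
    intro i j
    split_ifs
    · exact le_rfl
    · exact hΦ.nonneg _
  unfold qI
  calc Φ (x i - x j) = if cl i = cl j then (0 : ℝ) else Φ (x i - x j) := by rw [if_neg hij]
    _ ≤ ∑ j, if cl i = cl j then (0 : ℝ) else Φ (x i - x j) :=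
        Finset.single_le_sum (f := fun j => if cl i = cl j then (0 : ℝ) else Φ (x i - x j))
          (fun j _ => h0 i j) (Finset.mem_univ j)
    _ ≤ ∑ i, ∑ j, if cl i = cl j then (0 : ℝ) else Φ (x i - x j) :=
        Finset.single_le_sum (f := fun i => ∑ j, if cl i = cl j then (0 : ℝ) else Φ (x i - x j))
          (fun i _ => Finset.sum_nonneg fun j _ => h0 i j) (Finset.mem_univ i)

lemma le_sI (cl : Fin N → Fin K) (v : C N n) (i : Fin N) : ‖v i - mu cl v (cl i)‖ ≤ sI cl v :=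
  Finset.single_le_sum (f := fun i => ‖v i - mu cl v (cl i)‖) (fun _ _ => norm_nonneg _)
    (Finset.mem_univ i)

lemma vel_bound (v : C N n) (R : ℝ) (h : ke v ≤ R) (i j : Fin N) : ‖v j - v i‖ ≤ 2 * √R := by
  have h1 : ∀ i, ‖v i‖ ≤ √R := by
    intro i
    apply Real.le_sqrt_of_sq_le
    refine le_trans ?_ h
    exact Finset.single_le_sum (f := fun i => ‖v i‖ ^ 2) (fun _ _ => by positivity)
      (Finset.mem_univ i)
  have h2 := norm_sub_le (v j) (v i)
  linarith [h1 i, h1 j]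

lemma vel_same (cl : Fin N → Fin K) (v : C N n) (i j : Fin N) (hij : cl i = cl j) :
    ‖v j - v i‖ ≤ 2 * sI cl v := by
  have e : v j - v i = (v j - mu cl v (cl j)) - (v i - mu cl v (cl i)) := by
    rw [hij]
    abel
  rw [e]
  have h4 := norm_sub_le (v j - mu cl v (cl j)) (v i - mu cl v (cl i))
  have h5 := le_sI cl v i
  have h6 := le_sI cl v j
  linarith

lemma lip (Φ : E n → ℝ) (hΦ : Kernel Φ) (A : ℝ) (hA : ∀ x, ‖fderiv ℝ Φ x‖ ≤ A) (x y : E n) :
    |Φ x - Φ y| ≤ A * ‖x - y‖ := by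
  have hd : Differentiable ℝ Φ := hΦ.smooth.differentiable (by norm_num)
  have h := Convex.norm_image_sub_le_of_norm_fderiv_le (𝕜 := ℝ) (f := Φ) (s := Set.univ)
    (x := y) (y := x) (fun z _ => hd z) (fun z _ => hA z) convex_univ (mem_univ _) (mem_univ _)
  rwa [Real.norm_eq_abs] at h

/-- constant of the remainder -/
noncomputable def cR (A A' R : ℝ) : ℝ := 4 * A' + 8 * A * √R + 2

/-- the remainder of the equation for the difference of two orbits -/
noncomputable def rem (Φ : E n → ℝ) (cl : Fin N → Fin K) (z z' : P N n) : XX N n :=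
  toX N n (force Φ z - force Φ z') + cj (LpC Φ cl z.1) (toX N n (z.2 - z'.2))

lemma rem_apply (Φ : E n → ℝ) (cl : Fin N → Fin K) (z z' : P N n) (i : Fin N) :
    rem Φ cl z z' i = (N : ℝ)⁻¹ • ∑ j, (if cl i = cl j then
      (Φ (z.1 i - z.1 j) - Φ (z'.1 i - z'.1 j)) • (z'.2 j - z'.2 i) else
      (Φ (z.1 i - z.1 j) • ((z.2 j - z'.2 j) - (z.2 i - z'.2 i)) +
        (Φ (z.1 i - z.1 j) - Φ (z'.1 i - z'.1 j)) • (z'.2 j - z'.2 i))) := by
  have e0 : rem Φ cl z z' i = (force Φ z i - force Φ z' i) +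
      LpC Φ cl z.1 (z.2 - z'.2) i := rfl
  rw [e0, LpC_apply]
  unfold force
  rw [← smul_sub, ← smul_add, ← Finset.sum_sub_distrib, ← Finset.sum_add_distrib]
  congr 1
  apply Finset.sum_congr rfl
  intro j _
  have e1 : (z.2 - z'.2) i = z.2 i - z'.2 i := rfl
  have e2 : (z.2 - z'.2) j = z.2 j - z'.2 j := rfl
  rw [e1, e2]
  split_ifs
  · module
  · module

lemma real1 (A A' r eps X V a b : ℝ) (hA : 0 ≤ A) (hA' : 0 ≤ A') (hr : 0 ≤ r) (he : 0 < eps)
    (hX : 0 ≤ X) (hV : 0 ≤ V) (hb : 0 ≤ b) (h1 : a ≤ A' * (2 * X)) (h2 : b ≤ 2 * eps) :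
    a * b ≤ (4 * A' + 8 * A * r + 2) * eps * (X + V) := by
  have k1 : a * b ≤ (A' * (2 * X)) * (2 * eps) :=
    mul_le_mul h1 h2 hb (mul_nonneg hA' (mul_nonneg two_pos.le hX))
  have k2 : 0 ≤ A' * eps * V := mul_nonneg (mul_nonneg hA' he.le) hV
  have k3 : 0 ≤ A * r * eps * (X + V) :=
    mul_nonneg (mul_nonneg (mul_nonneg hA hr) he.le) (add_nonneg hX hV)
  have k4 : 0 ≤ eps * (X + V) := mul_nonneg he.le (add_nonneg hX hV)
  nlinarith

lemma real2 (A A' r eps X V a b : ℝ) (hA : 0 ≤ A) (hA' : 0 ≤ A') (hr : 0 ≤ r) (he : 0 < eps)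
    (hX : 0 ≤ X) (hV : 0 ≤ V) (h1 : a ≤ 2 * eps * V) (h2 : b ≤ 8 * A * r * eps * X) :
    a + b ≤ (4 * A' + 8 * A * r + 2) * eps * (X + V) := by
  have k1 : 0 ≤ A' * eps * (X + V) := mul_nonneg (mul_nonneg hA' he.le) (add_nonneg hX hV)
  have k2 : 0 ≤ A * r * eps * V := mul_nonneg (mul_nonneg (mul_nonneg hA hr) he.le) hV
  have k3 : 0 ≤ eps * X := mul_nonneg he.le hX
  nlinarith

lemma real3 (A r eps X a b p q d : ℝ) (hA : 0 ≤ A) (_hr : 0 ≤ r) (he : 0 < eps)
    (hX : 0 ≤ X) (hb0 : 0 ≤ b) (hd0 : 0 ≤ d) (hp : p ≤ eps) (hq : q ≤ eps) (hd : d ≤ 2 * X)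
    (ha : a ≤ A * (p + q) * d) (hb : b ≤ 2 * r) : a * b ≤ 8 * A * r * eps * X := by
  have k1 : A * (p + q) * d ≤ A * (2 * eps) * (2 * X) := by
    apply mul_le_mul
    · exact mul_le_mul_of_nonneg_left (by linarith) hA
    · exact hd
    · exact hd0
    · exact mul_nonneg hA (by linarith)
  have k2 : a * b ≤ (A * (2 * eps) * (2 * X)) * (2 * r) :=
    mul_le_mul (ha.trans k1) hb hb0
      (mul_nonneg (mul_nonneg hA (by linarith)) (by linarith))
  linarith [k2, show (A * (2 * eps) * (2 * X)) * (2 * r) = 8 * A * r * eps * X by ring]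

lemma real4 (eps V p d : ℝ) (he : 0 < eps) (he1 : eps ≤ 1) (hV : 0 ≤ V)
    (hd0 : 0 ≤ d) (hp : p ≤ eps ^ 2) (hd : d ≤ 2 * V) : p * d ≤ 2 * eps * V := by
  have k1 : p * d ≤ eps ^ 2 * (2 * V) := mul_le_mul hp hd hd0 (sq_nonneg _)
  have k2 : eps ^ 2 ≤ eps := by nlinarith
  have k3 : eps ^ 2 * (2 * V) ≤ eps * (2 * V) := mul_le_mul_of_nonneg_right k2 (by linarith)
  linarith

lemma rem_bound (Φ : E n → ℝ) (hΦ : Kernel Φ) (cl : Fin N → Fin K) (z z' : P N n)
    (A A' R eps : ℝ) (hA : 0 ≤ A)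
    (hA1 : ∀ x y, |Φ x - Φ y| ≤ A * (√(Φ x) + √(Φ y)) * ‖x - y‖)
    (hA2 : ∀ x, ‖fderiv ℝ Φ x‖ ≤ A') (he : 0 < eps) (he1 : eps ≤ 1)
    (hR : ke z'.2 ≤ R) (hq : qI Φ cl z.1 ≤ eps ^ 2) (hq' : qI Φ cl z'.1 ≤ eps ^ 2)
    (hs : sI cl z'.2 ≤ eps) :
    ‖rem Φ cl z z'‖ ≤ N * cR A A' R * eps *
      (‖toX N n (z.1 - z'.1)‖ + ‖toX N n (z.2 - z'.2)‖) := by
  have hA' : 0 ≤ A' := (norm_nonneg _).trans (hA2 0)
  obtain ⟨X, hX⟩ : ∃ X : ℝ, X = ‖toX N n (z.1 - z'.1)‖ := ⟨_, rfl⟩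
  obtain ⟨V, hV⟩ : ∃ V : ℝ, V = ‖toX N n (z.2 - z'.2)‖ := ⟨_, rfl⟩
  have hX0 : 0 ≤ X := hX ▸ norm_nonneg _
  have hV0 : 0 ≤ V := hV ▸ norm_nonneg _
  have hRs : 0 ≤ √R := Real.sqrt_nonneg _
  have hx : ∀ i j : Fin N, ‖(z.1 i - z.1 j) - (z'.1 i - z'.1 j)‖ ≤ 2 * X := by
    intro i j
    have h1 := sub_bound (toX N n (z.1 - z'.1)) i j
    have e : (toX N n (z.1 - z'.1)) i - (toX N n (z.1 - z'.1)) j =
      (z.1 i - z.1 j) - (z'.1 i - z'.1 j) := by
      show (z.1 i - z'.1 i) - (z.1 j - z'.1 j) = _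
      abel
    rwa [e, ← hX] at h1
  have hv : ∀ i j : Fin N, ‖(z.2 j - z'.2 j) - (z.2 i - z'.2 i)‖ ≤ 2 * V := by
    intro i j
    have h1 := sub_bound (toX N n (z.2 - z'.2)) j i
    rw [← hV] at h1
    exact h1
  rw [← hX, ← hV]
  have key : ∀ i j : Fin N, ‖(if cl i = cl j then
      (Φ (z.1 i - z.1 j) - Φ (z'.1 i - z'.1 j)) • (z'.2 j - z'.2 i) else
      (Φ (z.1 i - z.1 j) • ((z.2 j - z'.2 j) - (z.2 i - z'.2 i)) +
        (Φ (z.1 i - z.1 j) - Φ (z'.1 i - z'.1 j)) • (z'.2 j - z'.2 i)))‖ ≤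
      cR A A' R * eps * (X + V) := by
    intro i j
    unfold cR
    split_ifs with hij
    · rw [norm_smul, Real.norm_eq_abs]
      have h1 := lip Φ hΦ A' hA2 (z.1 i - z.1 j) (z'.1 i - z'.1 j)
      have h3 := vel_same cl z'.2 i j hij
      exact real1 A A' (√R) eps X V _ _ hA hA' hRs he hX0 hV0 (norm_nonneg _)
        (h1.trans (mul_le_mul_of_nonneg_left (hx i j) hA')) (h3.trans (by linarith))
    · have h1 := hA1 (z.1 i - z.1 j) (z'.1 i - z'.1 j)
      have h3 := vel_bound z'.2 R hR i j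
      have p1 : Φ (z.1 i - z.1 j) ≤ eps ^ 2 := (Phi_le_qI Φ hΦ cl z.1 i j hij).trans hq
      have p2 : Φ (z'.1 i - z'.1 j) ≤ eps ^ 2 := (Phi_le_qI Φ hΦ cl z'.1 i j hij).trans hq'
      have p3 : √(Φ (z.1 i - z.1 j)) ≤ eps := Real.sqrt_le_iff.mpr ⟨he.le, p1⟩
      have p4 : √(Φ (z'.1 i - z'.1 j)) ≤ eps := Real.sqrt_le_iff.mpr ⟨he.le, p2⟩
      refine (norm_add_le _ _).trans ?_
      apply real2 A A' (√R) eps X V _ _ hA hA' hRs he hX0 hV0
      · rw [norm_smul, Real.norm_eq_abs, abs_of_nonneg (hΦ.nonneg _)]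
        exact real4 eps V _ _ he he1 hV0 (norm_nonneg _) p1 (hv i j)
      · rw [norm_smul, Real.norm_eq_abs]
        exact real3 A (√R) eps X _ _ _ _ _ hA hRs he hX0 (norm_nonneg _) (norm_nonneg _) p3 p4
          (hx i j) h1 h3
  have h1 : ∀ i : Fin N, ‖rem Φ cl z z' i‖ ≤ cR A A' R * eps * (X + V) := by
    intro i
    rw [rem_apply, norm_smul, norm_inv, Real.norm_natCast]
    have hN : (0 : ℝ) < N := by
      have : 0 < N := i.pos
      exact_mod_cast this
    have h2 : ‖∑ j, (if cl i = cl j then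
      (Φ (z.1 i - z.1 j) - Φ (z'.1 i - z'.1 j)) • (z'.2 j - z'.2 i) else
      (Φ (z.1 i - z.1 j) • ((z.2 j - z'.2 j) - (z.2 i - z'.2 i)) +
        (Φ (z.1 i - z.1 j) - Φ (z'.1 i - z'.1 j)) • (z'.2 j - z'.2 i)))‖ ≤
        N * (cR A A' R * eps * (X + V)) := by
      refine (norm_sum_le _ _).trans ((Finset.sum_le_sum fun j _ => key i j).trans (le_of_eq ?_))
      rw [Finset.sum_const, Finset.card_univ, Fintype.card_fin, nsmul_eq_mul]
    refine (mul_le_mul_of_nonneg_left h2 (inv_nonneg.mpr hN.le)).trans (le_of_eq ?_)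
    rw [← mul_assoc, inv_mul_cancel₀ hN.ne', one_mul]
  refine (norm_le_sum _).trans ((Finset.sum_le_sum fun i _ => h1 i).trans (le_of_eq ?_))
  rw [Finset.sum_const, Finset.card_univ, Fintype.card_fin, nsmul_eq_mul]
  ring

lemma deriv_toX (f f' : ℝ → C N n) (g g' : C N n) (S : Set ℝ) (t : ℝ)
    (h : HasDerivWithinAt f g S t) (h' : HasDerivWithinAt f' g' S t) :
    HasDerivWithinAt (fun s => toX N n (f s - f' s)) (toX N n (g - g')) S t := by
  have h1 : HasDerivWithinAt (fun s => f s - f' s) (g - g') S t := h.sub h'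
  exact ((toX N n).toContinuousLinearMap.hasFDerivAt).comp_hasDerivWithinAt t h1

theorem main (hC : CONE) (hR : REP) (Φ : E n → ℝ) (cl : Fin N → Fin K) (lam R : ℝ)
    (hΦ : Kernel Φ) (hs : Function.Surjective cl) (hl : 0 < lam) (hl1 : lam ≤ 1)
    (A A' : ℝ) (hA : 0 ≤ A)
    (hA1 : ∀ x y, |Φ x - Φ y| ≤ A * (√(Φ x) + √(Φ y)) * ‖x - y‖)
    (hA2 : ∀ x, ‖fderiv ℝ Φ x‖ ≤ A') (eps : ℝ) (he : 0 < eps) (he1 : eps ≤ 1)
    (he2 : 1000 * (N * cR A A' R * eps) ≤ lam ^ 2)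
    (φ : ℝ → P N n → P N n) (M : ℝ → P N n → P N n →L[ℝ] P N n) (hφ : IsFlow (fld Φ R) φ M)
    (z z' : P N n) (hz : z ∈ GoodSet Φ cl lam R eps φ) (hz' : z' ∈ GoodSet Φ cl lam R eps φ)
    (hv : z.2 - z'.2 = io cl (mu cl (z.2 - z'.2))) (T : ℝ) (hT : 0 ≤ T)
    (hx : (φ T z).1 = (φ T z').1) (hm : mu cl (φ T z).2 = mu cl (φ T z').2) : z = z' := by
  have hA' : 0 ≤ A' := (norm_nonneg _).trans (hA2 0)
  have hg : GoodTraj Φ cl lam R eps (fun t => (φ t z).1) (fun t => (φ t z).2) := hz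
  have hg' : GoodTraj Φ cl lam R eps (fun t => (φ t z').1) (fun t => (φ t z').2) := hz'
  have k0 : ke z.2 ≤ R := by
    have := hg.vel 0 le_rfl
    simpa only [hφ.zero] using this
  have k0' : ke z'.2 ≤ R := by
    have := hg'.vel 0 le_rfl
    simpa only [hφ.zero] using this
  have f1 : IsFlock Φ (fun t => (φ t z).1) (fun t => (φ t z).2) :=
    ((hR n N Φ R hΦ φ M hφ).1 z k0).2
  have f2 : IsFlock Φ (fun t => (φ t z').1) (fun t => (φ t z').2) :=
    ((hR n N Φ R hΦ φ M hφ).1 z' k0').2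
  have hc : 0 ≤ cR A A' R := by unfold cR; positivity
  have hcone := hC (XX N n) (Fin K → E n) ((toL N n).comp (ioL cl)) ((muL cl).comp (ofL N n))
    (by
      intro τ
      show muL cl (ioL cl τ) = τ
      rw [muL_apply, mu_io hs])
    (by
      intro x y
      show inner ℝ ((toL N n) (ioL cl (muL cl (ofL N n x)))) y =
        inner ℝ x ((toL N n) (ioL cl (muL cl (ofL N n y))))
      rw [PiLp.inner_apply, PiLp.inner_apply, muL_apply, muL_apply]
      have e1 : ∑ i, inner ℝ (((toL N n) (ioL cl (mu cl (ofL N n x)))) i) (y i) =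
          ∑ i, inner ℝ (mu cl (ofL N n x) (cl i)) ((ofL N n y) i) := rfl
      have e2 : ∑ i, inner ℝ (x i) (((toL N n) (ioL cl (mu cl (ofL N n y)))) i) =
          ∑ i, inner ℝ ((ofL N n x) i) (mu cl (ofL N n y) (cl i)) := rfl
      rw [e1, e2, inner_mu hs]
      have e3 : ∑ i, inner ℝ ((ofL N n x) i) (mu cl (ofL N n y) (cl i)) =
          ∑ i, inner ℝ (mu cl (ofL N n y) (cl i)) ((ofL N n x) i) := by
        apply Finset.sum_congr rfl
        intro i _
        rw [real_inner_comm]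
      rw [e3, inner_mu hs]
      apply Finset.sum_congr rfl
      intro a _
      rw [real_inner_comm])
    lam (N * cR A A' R * eps) T hl hl1 (by positivity) he2 hT
    (fun t => cj (LpC Φ cl (φ t z).1))
    (by
      intro t ht
      refine ⟨?_, ?_, ?_⟩
      · intro u w
        show inner ℝ (cj (LpC Φ cl (φ t z).1) u) w = inner ℝ u (cj (LpC Φ cl (φ t z).1) w)
        rw [real_inner_comm _ u, inner_Lp Φ hΦ, inner_Lp Φ hΦ]
        congr 1
        apply Finset.sum_congr rfl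
        intro i _
        apply Finset.sum_congr rfl
        intro j _
        rw [real_inner_comm]
      · intro τ
        show cj (LpC Φ cl (φ t z).1) ((toL N n) (ioL cl τ)) = 0
        ext1 i
        rw [cj_apply, LpC_apply]
        have e : ∑ j, (if cl i = cl j then Φ ((φ t z).1 i - (φ t z).1 j) •
            ((ofL N n ((toL N n) (ioL cl τ))) i - (ofL N n ((toL N n) (ioL cl τ))) j)
            else 0) = 0 := by
          apply Finset.sum_eq_zero
          intro j _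
          split_ifs with h
          · have e2 : (ofL N n ((toL N n) (ioL cl τ))) i - (ofL N n ((toL N n) (ioL cl τ))) j =
                τ (cl i) - τ (cl j) := rfl
            rw [e2, h, sub_self, smul_zero]
          · rfl
        rw [e, smul_zero]
        rfl
      · intro u hu
        have hu2 : mu cl (ofL N n u) = 0 := by
          rw [← muL_apply]
          exact hu
        have h2 := hg.gap t ht.1 (ofL N n u) hu2
        show lam * ‖u‖ ^ 2 ≤ inner ℝ (cj (LpC Φ cl (φ t z).1) u) u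
        rw [inner_Lp Φ hΦ]
        have e1 : ‖u‖ ^ 2 = ke (ofL N n u) := PiLp.norm_sq_eq_of_L2 _ u
        rw [e1]
        refine h2.trans (le_of_eq ?_)
        congr 1
        apply Finset.sum_congr rfl
        intro i _
        apply Finset.sum_congr rfl
        intro j _
        rw [real_inner_self_eq_norm_sq]
        rfl)
    (fun t => toX N n ((φ t z).1 - (φ t z').1)) (fun t => toX N n ((φ t z).2 - (φ t z').2))
    (fun t => rem Φ cl (φ t z) (φ t z'))
    (by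
      intro t ht
      refine ⟨?_, ?_, ?_⟩
      · exact deriv_toX _ _ _ _ _ _ ((f1 t ht.1).1.mono Icc_subset_Ici_self)
          ((f2 t ht.1).1.mono Icc_subset_Ici_self)
      · have h1 := deriv_toX _ _ _ _ (Icc 0 T) t ((f1 t ht.1).2.mono Icc_subset_Ici_self)
          ((f2 t ht.1).2.mono Icc_subset_Ici_self)
        have e : -(cj (LpC Φ cl (φ t z).1) (toX N n ((φ t z).2 - (φ t z').2))) +
            rem Φ cl (φ t z) (φ t z') =
            toX N n (force Φ ((φ t z).1, (φ t z).2) - force Φ ((φ t z').1, (φ t z').2)) := by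
          unfold rem
          abel
        exact h1.congr_deriv e.symm
      · exact rem_bound Φ hΦ cl (φ t z) (φ t z') A A' R eps hA hA1 hA2 he he1
          (hg'.vel t ht.1) (hg.q_le t ht.1) (hg'.q_le t ht.1) (hg'.s_le t ht.1))
    (by
      show toX N n ((φ 0 z).2 - (φ 0 z').2) =
        toX N n (ioL cl (muL cl ((φ 0 z).2 - (φ 0 z').2)))
      rw [hφ.zero, hφ.zero, muL_apply]
      congr 1)
  have hmT : ((muL cl).comp (ofL N n)) (toX N n ((φ T z).2 - (φ T z').2)) = 0 := by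
    show muL cl ((φ T z).2 - (φ T z').2) = 0
    rw [map_sub, muL_apply, muL_apply, hm, sub_self]
  have hxT : toX N n ((φ T z).1 - (φ T z').1) = 0 := by
    rw [hx, sub_self, map_zero]
  simp only [hmT, hxT, map_zero, norm_zero, sub_zero] at hcone
  have hvT : toX N n ((φ T z).2 - (φ T z').2) = 0 := by
    have h1 : ‖toX N n ((φ T z).2 - (φ T z').2)‖ ^ 2 ≤ 0 := by
      refine hcone.trans (le_of_eq ?_)
      ring
    have h2 : ‖toX N n ((φ T z).2 - (φ T z').2)‖ ^ 2 = 0 := le_antisymm h1 (sq_nonneg _)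
    exact norm_eq_zero.mp (pow_eq_zero_iff two_ne_zero |>.mp h2)
  have hv2 : (φ T z).2 = (φ T z').2 := by
    have h1 : (φ T z).2 - (φ T z').2 = 0 := by
      have h2 := (toX N n).map_eq_zero_iff.mp hvT
      exact h2
    exact sub_eq_zero.mp h1
  have hfin : φ T z = φ T z' := Prod.ext hx hv2
  have h1 := hφ.add (-T) T z
  have h2 := hφ.add (-T) T z'
  rw [neg_add_cancel, hφ.zero] at h1 h2
  rw [h1, h2, hfin]

end I_INJX

theorem I_INJ (hC : CONE) (hG : GRD) (hP : PERB) (hR : REP) : INJ := by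
  intro n N K Φ cl lam R hΦ hL hs hlam hlam1
  obtain ⟨A, hA, -, hA1⟩ := hG n Φ hΦ hL
  obtain ⟨A', hA2⟩ := hP n Φ hΦ
  have hA' : 0 ≤ A' := (norm_nonneg _).trans (hA2 0).2
  have hc : 0 ≤ I_INJX.cR A A' R := by unfold I_INJX.cR; positivity
  have hD : 0 < 1000 * (N * I_INJX.cR A A' R + 1) := by positivity
  refine ⟨min 1 (lam ^ 2 / (1000 * (N * I_INJX.cR A A' R + 1))), by positivity, ?_⟩
  intro eps he hle φ M hφ z hz z' hz' hv T hT hx hm
  have he1 : eps ≤ 1 := hle.trans (min_le_left _ _)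
  have he2 : eps ≤ lam ^ 2 / (1000 * (N * I_INJX.cR A A' R + 1)) := hle.trans (min_le_right _ _)
  rw [le_div_iff₀ hD] at he2
  refine I_INJX.main hC hR Φ cl lam R hΦ hs hlam hlam1 A A' hA.le hA1 (fun x => (hA2 x).2) eps he
    he1 ?_ φ M hφ z z' hz hz' hv T hT hx hm
  nlinarith

end Pool.Agent.Work.MP_c9f990_an.Al
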