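import Pool.Agent.Work.MP_c9f990_an.Rg.DefR

set_option autoImplicit false

/-!
# MP_c9f990_an: rigid clusters.  Statements of the items of block RG
-/

open MeasureTheory Set Filter Topology
open scoped NNReal ENNReal

namespace Pool.Agent.Work.MP_c9f990_an.Al

/-! ## abstract linear theory -/

/-- the cone condition -/
def CONE : Prop := ∀ (X VK : Type) [NormedAddCommGroup X] [InnerProductSpace ℝ X]
  [NormedAddCommGroup VK] [NormedSpace ℝ VK] (io : VK →L[ℝ] X) (mu : X →L[ℝ] VK),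
  (∀ τ, mu (io τ) = τ) → (∀ x y, inner ℝ (io (mu x)) y = inner ℝ x (io (mu y))) →
  ∀ (lam eta T : ℝ), 0 < lam → lam ≤ 1 → 0 ≤ eta → 1000 * eta ≤ lam ^ 2 → 0 ≤ T →
  ∀ Lp : ℝ → X →L[ℝ] X,
  (∀ t ∈ Icc 0 T, (∀ x y, inner ℝ (Lp t x) y = inner ℝ x (Lp t y)) ∧ (∀ τ, Lp t (io τ) = 0) ∧
    ∀ x, mu x = 0 → lam * ‖x‖ ^ 2 ≤ inner ℝ (Lp t x) x) →
  ∀ x v r : ℝ → X,
  (∀ t ∈ Icc 0 T, HasDerivWithinAt x (v t) (Icc 0 T) t ∧
    HasDerivWithinAt v (-(Lp t (v t)) + r t) (Icc 0 T) t ∧ ‖r t‖ ≤ eta * (‖x t‖ + ‖v t‖)) →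
  v 0 = io (mu (v 0)) →
  ‖v T - io (mu (v T))‖ ^ 2 ≤ (lam / 16) ^ 2 * ‖x T‖ ^ 2 + ‖io (mu (v T))‖ ^ 2

/-- derivative of the determinant along a curve of operators, one-sided -/
def DTD : Prop := ∀ (Q : Type) [NormedAddCommGroup Q] [NormedSpace ℝ Q] [FiniteDimensional ℝ Q]
  (A : Q →L[ℝ] Q) (Y : ℝ → Q →L[ℝ] Q) (S : Set ℝ) (t : ℝ),
  HasDerivWithinAt Y (A.comp (Y t)) S t →
  HasDerivWithinAt (fun s => (Y s).det) (LinearMap.trace ℝ Q (A : Q →ₗ[ℝ] Q) * (Y t).det) S t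

/-- existence and properties of the slope -/
def SLP : Prop := ∀ (X VK : Type) [NormedAddCommGroup X] [InnerProductSpace ℝ X]
  [FiniteDimensional ℝ X] [NormedAddCommGroup VK] [NormedSpace ℝ VK] [FiniteDimensional ℝ VK]
  (D : LinData X VK) (lam eta : ℝ) (q g s : ℝ → ℝ), 0 < lam → lam ≤ 1 → 2000 * eta ≤ lam ^ 2 →
  LinOK D lam eta q g s → ∀ xm vm : ℝ → (X × VK) →L[ℝ] X, LinSol D xm vm →
  ∃ Rm : ℝ → (X × VK) →L[ℝ] X, SlopeOK D lam xm vm Rm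

/-- integral bound of the slope -/
def RL2 : Prop := ∀ (X VK : Type) [NormedAddCommGroup X] [InnerProductSpace ℝ X]
  [FiniteDimensional ℝ X] [NormedAddCommGroup VK] [NormedSpace ℝ VK] [FiniteDimensional ℝ VK]
  (D : LinData X VK) (lam eta : ℝ) (q g s : ℝ → ℝ), 0 < lam → lam ≤ 1 → 2000 * eta ≤ lam ^ 2 →
  LinOK D lam eta q g s → ∀ xm vm Rm : ℝ → (X × VK) →L[ℝ] X, SlopeOK D lam xm vm Rm →
  ∀ T, 0 ≤ T →
  (∀ x : X, ∫ t in (0 : ℝ)..T, ‖Rm t (x, 0)‖ ^ 2 ≤ 400 / lam ^ 4 * eta * ‖x‖ ^ 2) ∧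
  (∀ τ : VK, ∫ t in (0 : ℝ)..T, ‖Rm t (0, τ)‖ ^ 2 ≤ 400 / lam ^ 4 * eta * ‖D.io τ‖ ^ 2)

/-- trace and operator norm -/
def TRN : Prop := ∀ (X : Type) [NormedAddCommGroup X] [InnerProductSpace ℝ X]
  [FiniteDimensional ℝ X] (f : X →L[ℝ] X),
  |LinearMap.trace ℝ X (f : X →ₗ[ℝ] X)| ≤ Module.finrank ℝ X * ‖f‖

/-- trace of a block operator -/
def TRB : Prop := ∀ (X VK : Type) [NormedAddCommGroup X] [NormedSpace ℝ X]
  [FiniteDimensional ℝ X] [NormedAddCommGroup VK] [NormedSpace ℝ VK] [FiniteDimensional ℝ VK]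
  (A : (X × VK) →L[ℝ] (X × VK)),
  LinearMap.trace ℝ (X × VK) (A : (X × VK) →ₗ[ℝ] (X × VK)) =
    LinearMap.trace ℝ X (((ContinuousLinearMap.fst ℝ X VK).comp
      (A.comp (ContinuousLinearMap.inl ℝ X VK)) : X →L[ℝ] X) : X →ₗ[ℝ] X) +
    LinearMap.trace ℝ VK (((ContinuousLinearMap.snd ℝ X VK).comp
      (A.comp (ContinuousLinearMap.inr ℝ X VK)) : VK →L[ℝ] VK) : VK →ₗ[ℝ] VK)

/-- the determinant estimate -/
def DETA : Prop := ∀ (X VK : Type) [NormedAddCommGroup X] [InnerProductSpace ℝ X]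
  [FiniteDimensional ℝ X] [NormedAddCommGroup VK] [NormedSpace ℝ VK] [FiniteDimensional ℝ VK]
  (lam : ℝ), 0 < lam → lam ≤ 1 → ∃ eta : ℝ, 0 < eta ∧
  ∀ (D : LinData X VK) (q g s : ℝ → ℝ), LinOK D lam eta q g s →
  ∀ xm vm : ℝ → (X × VK) →L[ℝ] X, LinSol D xm vm → ∀ T, 0 ≤ T → ∀ H : ℝ → X →L[ℝ] X,
  (∀ t ∈ Icc 0 T, HasDerivWithinAt H ((H t).comp (D.Lp t) - D.om) (Icc 0 T) t ∧
    ‖H t‖ ≤ 1 / lam ∧ (H t).comp D.io = 0) → H T = 0 →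
  |∫ t in (0 : ℝ)..T, LinearMap.trace ℝ X (((H t).comp (D.Ge t) : X →L[ℝ] X) : X →ₗ[ℝ] X)| ≤ 1 / 8 →
  1 / 2 ≤ |(Ym D xm vm T).det|

/-- the adjoint operator -/
def ADJ : Prop := ∀ (X VK : Type) [NormedAddCommGroup X] [InnerProductSpace ℝ X]
  [FiniteDimensional ℝ X] [NormedAddCommGroup VK] [NormedSpace ℝ VK]
  (io : VK →L[ℝ] X) (mu : X →L[ℝ] VK), (∀ τ, mu (io τ) = τ) →
  (∀ x y, inner ℝ (io (mu x)) y = inner ℝ x (io (mu y))) →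
  ∀ (lam T : ℝ), 0 < lam → 0 ≤ T → ∀ Lp : ℝ → X →L[ℝ] X, ContinuousOn Lp (Icc 0 T) →
  (∀ t ∈ Icc 0 T, (∀ x y, inner ℝ (Lp t x) y = inner ℝ x (Lp t y)) ∧ (∀ τ, Lp t (io τ) = 0) ∧
    ∀ x, mu x = 0 → lam * ‖x‖ ^ 2 ≤ inner ℝ (Lp t x) x) →
  ∃ H : ℝ → X →L[ℝ] X, H T = 0 ∧ ∀ t ∈ Icc 0 T,
    HasDerivWithinAt H ((H t).comp (Lp t) - (ContinuousLinearMap.id ℝ X - io.comp mu)) (Icc 0 T) t ∧
    ‖H t‖ ≤ 1 / lam ∧ (H t).comp io = 0 ∧ mu.comp (H t) = 0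

/-! ## the flock -/

/-- estimates for nonnegative functions with Lipschitz gradient -/
def GRD : Prop := ∀ (n : ℕ) (Φ : E n → ℝ), Kernel Φ → LipGrad Φ →
  ∃ A : ℝ, 0 < A ∧ (∀ x, ‖fderiv ℝ Φ x‖ ≤ A * √(Φ x)) ∧
    ∀ x y, |Φ x - Φ y| ≤ A * (√(Φ x) + √(Φ y)) * ‖x - y‖

/-- connected clusters have a spectral gap -/
def GAPL : Prop := ∀ (N K : ℕ) (cl : Fin N → Fin K) (δ : ℝ), 0 < δ → ∃ lam : ℝ, 0 < lam ∧ lam ≤ 1 ∧
  ∀ (n : ℕ) (Φ : E n → ℝ) (x : C N n), Kernel Φ →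
  (∀ A : Finset (Fin N), (∀ i ∈ A, ∀ j ∈ A, cl i = cl j) → (∃ i ∈ A, ∃ j, j ∉ A ∧ cl j = cl i) →
    ∃ i ∈ A, ∃ j, j ∉ A ∧ cl j = cl i ∧ δ ≤ Φ (x i - x j)) →
  Gap Φ cl lam x

/-- rigid clusters: the trajectory becomes good -/
def ENTER : Prop := ∀ (n N K : ℕ) (Φ : E n → ℝ), Kernel Φ → ∀ x v : ℝ → C N n, IsFlock Φ x v →
  ∀ c : C N n, (∀ i, Tendsto (fun t => v t i) atTop (𝓝 (c i))) →
  ∀ cl : Fin N → Fin K, (∀ i j, cl i = cl j ↔ c i = c j) → ∀ lam T₁ : ℝ, 0 < lam →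
  (∀ t, T₁ ≤ t → Gap Φ cl lam (x t)) → ∀ R, ke (v 0) ≤ R → ∀ eps, 0 < eps →
  ∃ T₀ : ℕ, GoodTraj Φ cl lam R eps (fun t => x (T₀ + t)) (fun t => v (T₀ + t))

/-- the derivative of the cut-off field -/
def FDF : Prop := ∀ (n N K : ℕ) (Φ : E n → ℝ) (R : ℝ) (cl : Fin N → Fin K), Kernel Φ →
  ∀ z : P N n, ke z.2 < R + 1 → ∀ w : P N n, fderiv ℝ (fld Φ R) z w =
    (w.2, -(LpC Φ cl z.1 w.2) + SgC Φ cl z.1 w.2 + GeC Φ cl z w.1 + GaC Φ cl z w.1)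

/-- the assumptions of the linear theory hold along good trajectories -/
def LOK : Prop := ∀ (n N K : ℕ) (Φ : E n → ℝ) (cl : Fin N → Fin K) (lam R : ℝ), Kernel Φ →
  LipGrad Φ → Function.Surjective cl → 0 < lam → ∃ A : ℝ, 0 < A ∧ ∀ eps, 0 < eps → eps ≤ 1 →
  ∀ (φ : ℝ → P N n → P N n) (M : ℝ → P N n → P N n →L[ℝ] P N n), IsFlow (fld Φ R) φ M →
  ∀ z ∈ GoodSet Φ cl lam R eps φ, ∃ q g s : ℝ → ℝ,
  LinOK (dat Φ cl (fun t => φ t z)) lam (A * eps) q g s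

/-- the derivative of the flow is a fundamental solution -/
def LSOL : Prop := ∀ (n N K : ℕ) (Φ : E n → ℝ) (cl : Fin N → Fin K) (R : ℝ), Kernel Φ →
  ∀ (φ : ℝ → P N n → P N n) (M : ℝ → P N n → P N n →L[ℝ] P N n), IsFlow (fld Φ R) φ M →
  ∀ z : P N n, (∀ t, 0 ≤ t → ke (φ t z).2 ≤ R) →
  LinSol (dat Φ cl (fun t => φ t z)) (xmF cl M z) (vmF cl M z)

/-- the two determinants agree -/
def YDET : Prop := ∀ (n N K : ℕ) (Φ : E n → ℝ) (cl : Fin N → Fin K) (y : ℝ → P N n)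
  (M : ℝ → P N n → P N n →L[ℝ] P N n) (z : P N n) (t : ℝ),
  (Ym (dat Φ cl y) (xmF cl M z) (vmF cl M z) t).det = (Yop cl (M t z)).det

/-- the concrete adjoint and the trace of its product with the external position operator -/
def HAD : Prop := ∀ (n N K : ℕ) (Φ : E n → ℝ) (cl : Fin N → Fin K) (lam R : ℝ), Kernel Φ →
  Function.Surjective cl → 0 < lam → lam ≤ 1 → ∃ A : ℝ, 0 < A ∧ ∀ eps, 0 < eps → eps ≤ 1 →
  ∀ x v : ℝ → C N n, IsFlock Φ x v → GoodTraj Φ cl lam R eps x v → ∀ T, 0 ≤ T →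
  ∃ H : ℝ → XX N n →L[ℝ] XX N n, H T = 0 ∧
    (∀ t ∈ Icc 0 T, HasDerivWithinAt H ((H t).comp ((dat Φ cl (fun r => (x r, v r))).Lp t) -
      (dat Φ cl (fun r => (x r, v r))).om) (Icc 0 T) t ∧
      ‖H t‖ ≤ 1 / lam ∧ (H t).comp (dat Φ cl (fun r => (x r, v r))).io = 0) ∧
    |∫ t in (0 : ℝ)..T, LinearMap.trace ℝ (XX N n)
      (((H t).comp ((dat Φ cl (fun r => (x r, v r))).Ge t) : XX N n →L[ℝ] XX N n) :
        XX N n →ₗ[ℝ] XX N n)| ≤ A * eps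

/-- determinant estimate for the flow -/
def DETF : Prop := ∀ (n N K : ℕ) (Φ : E n → ℝ) (cl : Fin N → Fin K) (lam R : ℝ), Kernel Φ →
  LipGrad Φ → Function.Surjective cl → 0 < lam → lam ≤ 1 → ∃ eps₀ : ℝ, 0 < eps₀ ∧
  ∀ eps, 0 < eps → eps ≤ eps₀ →
  ∀ (φ : ℝ → P N n → P N n) (M : ℝ → P N n → P N n →L[ℝ] P N n), IsFlow (fld Φ R) φ M →
  ∀ z ∈ GoodSet Φ cl lam R eps φ, ∀ T, 0 ≤ T → 1 / 2 ≤ |(Yop cl (M T z)).det|

/-- positions and cluster means at time `T` determine the good initial point, the internal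
velocities at time `0` being given -/
def INJ : Prop := ∀ (n N K : ℕ) (Φ : E n → ℝ) (cl : Fin N → Fin K) (lam R : ℝ), Kernel Φ →
  LipGrad Φ → Function.Surjective cl → 0 < lam → lam ≤ 1 → ∃ eps₀ : ℝ, 0 < eps₀ ∧
  ∀ eps, 0 < eps → eps ≤ eps₀ →
  ∀ (φ : ℝ → P N n → P N n) (M : ℝ → P N n → P N n →L[ℝ] P N n), IsFlow (fld Φ R) φ M →
  ∀ z ∈ GoodSet Φ cl lam R eps φ, ∀ z' ∈ GoodSet Φ cl lam R eps φ,
  z.2 - z'.2 = io cl (mu cl (z.2 - z'.2)) → ∀ T, 0 ≤ T → (φ T z).1 = (φ T z').1 →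
  mu cl (φ T z).2 = mu cl (φ T z').2 → z = z'

/-- the good set is closed and lattice invariant -/
def GMS : Prop := ∀ (n N K : ℕ) (Φ : E n → ℝ) (cl : Fin N → Fin K) (lam R eps : ℝ), Kernel Φ →
  ∀ (φ : ℝ → P N n → P N n) (M : ℝ → P N n → P N n →L[ℝ] P N n), IsFlow (fld Φ R) φ M →
  IsClosed (GoodSet Φ cl lam R eps φ) ∧ ∀ (m : Fin N → Fin n → ℤ) (z : P N n),
    z ∈ GoodSet Φ cl lam R eps φ → z + (latC m, 0) ∈ GoodSet Φ cl lam R eps φ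

/-- volume of a set which meets every lattice class at most once -/
def LIFT : Prop := ∀ (n N K : ℕ) (A : Set (C N n × (Fin K → E n))) (E' : Set (Fin K → E n)),
  MeasurableSet A → MeasurableSet E' → (∀ y ∈ A, y.2 ∈ E') →
  (∀ y ∈ A, ∀ m : Fin N → Fin n → ℤ, y + (latC m, 0) ∈ A → m = 0) →
  volume A ≤ ENNReal.ofReal ((2 * Real.pi) ^ (n * N)) * volume E'

/-- slicing along the cluster means -/
def SLC : Prop := ∀ (n N K : ℕ) (cl : Fin N → Fin K) (R : ℝ), ∃ A : ℝ, 0 ≤ A ∧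
  ∀ S : Set (P N n), MeasurableSet S → (∀ z ∈ S, ke z.2 ≤ R) → ∀ b : ℝ≥0∞,
  (∀ v : C N n, volume {y : C N n × (Fin K → E n) | (y.1, v + io cl y.2) ∈ S} ≤ b) →
  volume S ≤ ENNReal.ofReal A * b

/-- the cluster means at time `T` have bounded density on the good set -/
def DENS : Prop := ∀ (n N K : ℕ) (Φ : E n → ℝ) (cl : Fin N → Fin K) (lam R : ℝ), Kernel Φ →
  LipGrad Φ → Function.Surjective cl → 0 < lam → lam ≤ 1 → ∃ eps : ℝ, 0 < eps ∧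
  ∀ (φ : ℝ → P N n → P N n) (M : ℝ → P N n → P N n →L[ℝ] P N n), IsFlow (fld Φ R) φ M →
  ∃ A : ℝ, ∀ T, 0 ≤ T → ∀ E' : Set (Fin K → E n), MeasurableSet E' →
  volume {z : P N n | z ∈ GoodSet Φ cl lam R eps φ ∧ z ∈ slab N n ∧ mu cl (φ T z).2 ∈ E'} ≤
    ENNReal.ofReal A * volume E'

/-- good initial points whose limit cluster means satisfy a linear relation are exceptional -/
def NULG : Prop := ∀ (n N K : ℕ) (Φ : E n → ℝ) (cl : Fin N → Fin K) (lam R : ℝ), Kernel Φ →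
  LipGrad Φ → Function.Surjective cl → 0 < lam → lam ≤ 1 → ∃ eps : ℝ, 0 < eps ∧
  ∀ (φ : ℝ → P N n → P N n) (M : ℝ → P N n → P N n →L[ℝ] P N n), IsFlow (fld Φ R) φ M →
  ∀ (a b : Fin K) (m : E n), a ≠ b → m ≠ 0 →
  volume {z : P N n | z ∈ GoodSet Φ cl lam R eps φ ∧
    Tendsto (fun t => inner ℝ m (mu cl (φ t z).2 a - mu cl (φ t z).2 b)) atTop (𝓝 0)} = 0

end Pool.Agent.Work.MP_c9f990_an.Al
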