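import Pool.Agent.Work.MP_c9f990_an.Al.Main4
import Pool.Agent.Work.MP_c9f990_an.Rg.StR

set_option autoImplicit false

/-!
# MP_c9f990_an: assembly of block RG
-/

open MeasureTheory Set Filter Topology
open scoped NNReal ENNReal

namespace Pool.Agent.Work.MP_c9f990_an.Al

variable {N n K : ℕ}

/-- a cluster of the limit which is not rigid: it splits into two parts whose mutual interaction
is arbitrarily small at arbitrarily late times -/
def Flexible (Φ : E n → ℝ) (x : ℝ → C N n) (c : C N n) : Prop :=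
  ∃ A : Finset (Fin N), (∀ i ∈ A, ∀ j ∈ A, c i = c j) ∧ (∃ i ∈ A, ∃ j, j ∉ A ∧ c j = c i) ∧
    ∀ δ : ℝ, 0 < δ → ∀ T : ℝ, ∃ t, T ≤ t ∧ ∀ i ∈ A, ∀ j, j ∉ A → c j = c i → Φ (x t i - x t j) < δ

lemma exists_cl (c : C N n) : ∃ (K : ℕ) (cl : Fin N → Fin K), Function.Surjective cl ∧
    ∀ i j, cl i = cl j ↔ c i = c j := by
  classical
  have hf : Finite (Set.range c) := Set.finite_range c
  let e := Finite.equivFin (Set.range c)
  refine ⟨Nat.card (Set.range c), fun i => e ⟨c i, Set.mem_range_self i⟩, ?_, ?_⟩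
  · intro k
    obtain ⟨y, hy⟩ := e.surjective k
    obtain ⟨i, hi⟩ := y.2
    refine ⟨i, ?_⟩
    have h1 : (⟨c i, Set.mem_range_self i⟩ : Set.range c) = y := Subtype.ext hi
    simp only [h1, hy]
  · intro i j
    constructor
    · intro h
      have h1 := e.injective h
      exact congrArg Subtype.val h1
    · intro h
      have h1 : (⟨c i, Set.mem_range_self i⟩ : Set.range c) = ⟨c j, Set.mem_range_self j⟩ :=
        Subtype.ext h
      simp only [h1]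

lemma mu_tendsto (cl : Fin N → Fin K) (c : C N n) (hcl : ∀ i j, cl i = cl j ↔ c i = c j)
    (v : ℝ → C N n) (hc : ∀ i, Tendsto (fun t => v t i) atTop (𝓝 (c i))) (i : Fin N) :
    Tendsto (fun t => mu cl (v t) (cl i)) atTop (𝓝 (c i)) := by
  classical
  have h1 : Tendsto (fun t => mu cl (v t) (cl i)) atTop (𝓝 (mu cl c (cl i))) := by
    unfold mu
    exact (tendsto_finsetSum _ fun j _ => hc j).const_smul _
  have h2 : mu cl c (cl i) = c i := by
    unfold mu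
    have h3 : ∑ j ∈ Finset.univ.filter (fun j => cl j = cl i), c j =
        ∑ j ∈ Finset.univ.filter (fun j => cl j = cl i), c i := by
      apply Finset.sum_congr rfl
      intro j hj
      exact (hcl j i).1 (Finset.mem_filter.1 hj).2
    rw [h3, Finset.sum_const]
    have h4 : (cnt cl (cl i) : ℝ) ≠ 0 := by
      have h5 : 0 < cnt cl (cl i) := Finset.card_pos.2 ⟨i, by simp⟩
      exact_mod_cast h5.ne'
    rw [← Nat.cast_smul_eq_nsmul ℝ, smul_smul]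
    have h6 : (cnt cl (cl i) : ℝ)⁻¹ *
        ((Finset.univ.filter (fun j => cl j = cl i)).card : ℝ) = 1 := inv_mul_cancel₀ h4
    rw [h6, one_smul]
  rwa [h2] at h1

lemma Gap.mono {Φ : E n → ℝ} {cl : Fin N → Fin K} {lam lam' : ℝ} {x : C N n}
    (h : Gap Φ cl lam x) (hl : lam' ≤ lam) : Gap Φ cl lam' x := by
  intro u hu
  refine le_trans ?_ (h u hu)
  apply mul_le_mul_of_nonneg_right hl
  unfold ke
  positivity

/-- the exceptional sets of block RG -/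
def BadG (Φ : E n → ℝ) (cl : Fin N → Fin K) (lam R eps : ℝ) (φ : ℝ → P N n → P N n)
    (a b : Fin K) (m : E n) : Set (P N n) :=
  {z | z ∈ GoodSet Φ cl lam R eps φ ∧
    Tendsto (fun t => inner ℝ m (mu cl (φ t z).2 a - mu cl (φ t z).2 b)) atTop (𝓝 0)}

theorem coreR (hRep : REP) (hInt : INTG) (hReso : RESO) (hGap : GAPL) (hEnter : ENTER)
    (Φ : E n → ℝ) (hΦ : Kernel Φ) (R : ℝ)
    (φ : ℝ → P N n → P N n) (M : ℝ → P N n → P N n →L[ℝ] P N n) (hφ : IsFlow (fld Φ R) φ M)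
    (z : P N n) (hz : ke z.2 ≤ R) (epsF : ∀ (K : ℕ), (Fin N → Fin K) → ℕ → ℝ)
    (heps : ∀ K cl p, 0 < epsF K cl p)
    (h4 : ∀ (K : ℕ) (cl : Fin N → Fin K) (p T₀ : ℕ) (a b : Fin K) (m : Fin n → ℤ),
      Function.Surjective cl → a ≠ b → m ≠ 0 →
      z ∉ φ T₀ ⁻¹' BadG Φ cl (1 / ((p : ℝ) + 1)) R (epsF K cl p) φ a b (intV m))
    (c : C N n) (hc : ∀ i, Tendsto (fun t => (φ t z).2 i) atTop (𝓝 (c i))) :
    (∀ i j, c i = c j) ∨ Flexible Φ (fun t => (φ t z).1) c := by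
  classical
  by_cases hall : ∀ i j, c i = c j
  · exact Or.inl hall
  right
  by_contra hfx
  push Not at hall
  obtain ⟨i₀, j₀, hij₀⟩ := hall
  obtain ⟨hke, hfl⟩ := (hRep n N Φ R hΦ φ M hφ).1 z hz
  obtain ⟨K, cl, hsur, hcl⟩ := exists_cl c
  -- uniform constants
  have hA : ∀ A : Finset (Fin N), ∃ δ T : ℝ, 0 < δ ∧ ((∀ i ∈ A, ∀ j ∈ A, c i = c j) →
      (∃ i ∈ A, ∃ j, j ∉ A ∧ c j = c i) → ∀ t, T ≤ t → ∃ i ∈ A, ∃ j, j ∉ A ∧ c j = c i ∧
        δ ≤ Φ ((φ t z).1 i - (φ t z).1 j)) := by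
    intro A
    by_cases h1 : (∀ i ∈ A, ∀ j ∈ A, c i = c j) ∧ (∃ i ∈ A, ∃ j, j ∉ A ∧ c j = c i)
    · by_contra h2
      push Not at h2
      apply hfx
      refine ⟨A, h1.1, h1.2, ?_⟩
      intro δ hδ T
      obtain ⟨_, _, t, ht, h3⟩ := h2 δ T hδ
      exact ⟨t, ht, fun i hi j hj hji => h3 i hi j hj hji⟩
    · refine ⟨1, 0, one_pos, ?_⟩
      intro h2 h3
      exact absurd ⟨h2, h3⟩ h1
  choose δ T hδ hT using hA
  obtain ⟨δ₀, hδ₀, hδ₀'⟩ : ∃ δ₀ : ℝ, 0 < δ₀ ∧ ∀ A, δ₀ ≤ δ A := by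
    obtain ⟨A₀, _, hA₀⟩ := Finset.exists_min_image (Finset.univ : Finset (Finset (Fin N))) δ
      ⟨∅, Finset.mem_univ _⟩
    exact ⟨δ A₀, hδ A₀, fun A => hA₀ A (Finset.mem_univ _)⟩
  obtain ⟨T₁, hT₁⟩ : ∃ T₁ : ℝ, ∀ A, T A ≤ T₁ := by
    obtain ⟨A₀, _, hA₀⟩ := Finset.exists_max_image (Finset.univ : Finset (Finset (Fin N))) T
      ⟨∅, Finset.mem_univ _⟩
    exact ⟨T A₀, fun A => hA₀ A (Finset.mem_univ _)⟩
  obtain ⟨lam, hlam, _, hlamG⟩ := hGap N K cl δ₀ hδ₀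
  obtain ⟨p, hp⟩ := exists_nat_one_div_lt hlam
  have hgap : ∀ t, T₁ ≤ t → Gap Φ cl (1 / ((p : ℝ) + 1)) (φ t z).1 := by
    intro t ht
    refine (hlamG n Φ (φ t z).1 hΦ ?_).mono hp.le
    intro A h1 h2
    have h1' : ∀ i ∈ A, ∀ j ∈ A, c i = c j := fun i hi j hj => (hcl i j).1 (h1 i hi j hj)
    have h2' : ∃ i ∈ A, ∃ j, j ∉ A ∧ c j = c i := by
      obtain ⟨i, hi, j, hj, hji⟩ := h2
      exact ⟨i, hi, j, hj, (hcl j i).1 hji⟩
    obtain ⟨i, hi, j, hj, hji, h3⟩ := hT A h1' h2' t ((hT₁ A).trans ht)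
    exact ⟨i, hi, j, hj, (hcl j i).2 hji, (hδ₀' A).trans h3⟩
  obtain ⟨T₀, hT₀⟩ := hEnter n N K Φ hΦ _ _ hfl c hc cl hcl (1 / ((p : ℝ) + 1)) T₁ (by positivity)
    hgap R (by simpa [hφ.zero] using hz) (epsF K cl p) (heps K cl p)
  -- resonance
  have hres : Resonant (c i₀ - c j₀) := by
    refine hReso n Φ hΦ (fun t => (φ t z).1 i₀ - (φ t z).1 j₀)
      (fun t => (φ t z).2 i₀ - (φ t z).2 j₀) (c i₀ - c j₀) ?_ ((hc i₀).sub (hc j₀))
      (hInt n N Φ hΦ _ _ hfl c hc i₀ j₀ hij₀)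
    intro t ht
    have h5 := (hfl t ht).1
    rw [hasDerivWithinAt_pi] at h5
    exact (h5 i₀).sub (h5 j₀)
  obtain ⟨m, hm0, hm⟩ := hres
  rw [← inner_intV] at hm
  have hab : cl i₀ ≠ cl j₀ := fun h => hij₀ ((hcl i₀ j₀).1 h)
  apply h4 K cl p T₀ (cl i₀) (cl j₀) m hsur hab hm0
  have hshift : ∀ t, φ t (φ T₀ z) = φ (T₀ + t) z := by
    intro t
    rw [← hφ.add, add_comm]
  constructor
  · change GoodTraj Φ cl (1 / ((p : ℝ) + 1)) R (epsF K cl p) (fun t => (φ t (φ T₀ z)).1)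
      (fun t => (φ t (φ T₀ z)).2)
    simp only [hshift]
    exact hT₀
  · have h5 := (mu_tendsto cl c hcl _ hc i₀).sub (mu_tendsto cl c hcl _ hc j₀)
    have h6 : Tendsto (fun t => inner ℝ (intV m) (mu cl (φ t z).2 (cl i₀) -
        mu cl (φ t z).2 (cl j₀))) atTop (𝓝 (inner ℝ (intV m) (c i₀ - c j₀))) :=
      ((continuous_const.inner continuous_id).tendsto (c i₀ - c j₀)).comp h5
    rw [hm] at h6
    have h7 : Tendsto (fun t : ℝ => (T₀ : ℝ) + t) atTop atTop := tendsto_atTop_add_const_left _ _ tendsto_id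
    have h8 := h6.comp h7
    refine h8.congr fun t => ?_
    simp only [Function.comp, hshift]

/-- the rigid clusters theorem -/
theorem generalR (hFlow : FLOW) (hFld : FLD) (hRep : REP) (hDet : DET) (hN1 : NUL1) (hN2 : NUL2)
    (hN3 : NUL3) (hN4 : NUL4) (hConv : CONV) (hInt : INTG) (hReso : RESO) (hEst : EST)
    (hTube : TUBE) (hTub : TUB4) (hPre : NPRE) (hGap : GAPL) (hEnter : ENTER) (hNG : NULG)
    (n N : ℕ) (Φ : E n → ℝ) (hΦ : Kernel Φ) (hL : LipGrad Φ) :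
    ∀ᵐ z : P N n, ∀ x v : ℝ → C N n, IsFlock Φ x v → (x 0, v 0) = z →
      ∃ c : C N n, (∀ i, Tendsto (fun t => v t i) atTop (𝓝 (c i))) ∧ Few c ∧ Spans c ∧
        Contact Φ x c ∧ ((∀ i j, c i = c j) ∨ Flexible Φ x c) := by
  classical
  have hfl : ∀ R : ℕ, ∃ (φ : ℝ → P N n → P N n) (M : ℝ → P N n → P N n →L[ℝ] P N n),
      IsFlow (fld Φ (R : ℝ)) φ M := by
    intro R
    obtain ⟨hC, L, hL⟩ := hFld n N Φ R hΦ
    exact hFlow _ _ L hL hC
  choose φ M hφ using hfl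
  have hex : ∀ (R K : ℕ) (cl : Fin N → Fin K) (p : ℕ), ∃ eps : ℝ, 0 < eps ∧
      (Function.Surjective cl → ∀ (a b : Fin K) (m : E n), a ≠ b → m ≠ 0 →
        volume (BadG Φ cl (1 / ((p : ℝ) + 1)) R eps (φ R) a b m) = 0) := by
    intro R K cl p
    by_cases hs : Function.Surjective cl
    · obtain ⟨eps, he, h⟩ := hNG n N K Φ cl (1 / ((p : ℝ) + 1)) R hΦ hL hs (by positivity) (by
        rw [div_le_one (by positivity)]
        linarith [Nat.cast_nonneg (α := ℝ) p])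
      exact ⟨eps, he, fun _ => h (φ R) (M R) (hφ R)⟩
    · exact ⟨1, one_pos, fun h => absurd h hs⟩
  choose epsF heps hnull using hex
  have hae : ∀ᵐ z : P N n, ∀ (R K : ℕ) (cl : Fin N → Fin K) (p T₀ : ℕ) (a b : Fin K)
      (m : Fin n → ℤ), Function.Surjective cl → a ≠ b → m ≠ 0 →
      z ∉ φ R T₀ ⁻¹' BadG Φ cl (1 / ((p : ℝ) + 1)) R (epsF R K cl p) (φ R) a b (intV m) := by
    simp only [ae_all_iff]
    intro R K cl p T₀ a b m hs hab hm
    have h1 := hnull R K cl p hs a b (intV m) hab (intV_ne hm)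
    have hHaar : (volume : Measure (P N n)).IsAddHaarMeasure :=
      Measure.prod.instIsAddHaarMeasure (volume : Measure (C N n)) (volume : Measure (C N n))
    have h2 := hPre (P N n) volume (fld Φ R) (φ R) (M R) (hφ R) T₀ _ h1
    exact measure_eq_zero_iff_ae_notMem.1 h2
  filter_upwards [hae, general4 hFlow hFld hRep hDet hN1 hN2 hN3 hN4 hConv hInt hReso hEst hTube
    hTub n N Φ hΦ] with z hz hz3
  intro x v hxv h0
  obtain ⟨c, hc, hfew, hspan, hcon⟩ := hz3 x v hxv h0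
  refine ⟨c, hc, hfew, hspan, hcon, ?_⟩
  obtain ⟨R, hR⟩ := exists_nat_ge (ke z.2)
  have hv0 : v 0 = z.2 := by rw [← h0]
  have hrep : ∀ t, 0 ≤ t → (x t, v t) = φ R t z := by
    intro t ht
    have h3 := (hRep n N Φ R hΦ (φ R) (M R) (hφ R)).2 x v hxv (by rw [hv0]; exact hR) t ht
    rw [h3, h0]
  have hc' : ∀ i, Tendsto (fun t => (φ R t z).2 i) atTop (𝓝 (c i)) := by
    intro i
    refine (hc i).congr' ?_
    filter_upwards [eventually_ge_atTop (0 : ℝ)] with t ht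
    rw [← hrep t ht]
  rcases coreR hRep hInt hReso hGap hEnter Φ hΦ R (φ R) (M R) (hφ R) z hR (epsF R) (heps R)
    (hz R) c hc' with h | ⟨A, h1, h2, h3⟩
  · exact Or.inl h
  · right
    refine ⟨A, h1, h2, ?_⟩
    intro δ hδ T
    obtain ⟨t, ht, h⟩ := h3 δ hδ (max T 0)
    refine ⟨t, (le_max_left _ _).trans ht, ?_⟩
    have h4 := hrep t ((le_max_right _ _).trans ht)
    have h5 : x t = (φ R t z).1 := by rw [← h4]
    rw [h5]
    exact h

end Pool.Agent.Work.MP_c9f990_an.Al
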