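import Pool.Agent.Work.MP_c9f990_an.Al.All
import Pool.Agent.Work.MP_c9f990_an.Rg.MainR
import Pool.Agent.Work.MP_c9f990_an.Bd.B05
import Pool.Agent.Work.MP_c9f990_an.Bd.B07
import Pool.Agent.Work.MP_c9f990_an.Bd.B06
import Pool.Agent.Work.MP_c9f990_an.Rg.I_INJ

set_option autoImplicit false

/-!
# MP_c9f990_an: block RG assembled
-/

open MeasureTheory Set Filter Topology
open scoped NNReal ENNReal

namespace Pool.Agent.Work.MP_c9f990_an.Al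

theorem p_SLP : SLP := I_SLP I_CONE I_DTD
theorem p_DETA : DETA := I_DETA p_SLP I_RL2 I_TRN I_TRB
theorem p_ADJ : ADJ := I_ADJ I_ODE
theorem p_ENTER : ENTER := I_ENTER I_PERB I_ENG p_INTG
theorem p_LOK : LOK := I_LOK I_GRD I_PERB
theorem p_LSOL : LSOL := I_LSOL I_FDF
theorem p_HAD : HAD := I_HAD p_ADJ I_PERB
theorem p_DETF : DETF := I_DETF p_LOK p_LSOL I_YDET p_HAD p_DETA I_REP
theorem p_INJ : INJ := I_INJ I_CONE I_GRD I_PERB I_REP
theorem p_GMS : GMS := I_GMS I_EQV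
theorem p_DENS : DENS := I_DENS p_DETF p_INJ p_GMS I_LIFT I_SLC I_EQV
theorem p_NULG : NULG := I_NULG p_DENS p_GMS I_EQV

/-- block RG without hypotheses -/
theorem all_generalR (n N : ℕ) (Φ : E n → ℝ) (hΦ : Kernel Φ) (hL : LipGrad Φ) :
    ∀ᵐ z : P N n, ∀ x v : ℝ → C N n, IsFlock Φ x v → (x 0, v 0) = z →
      ∃ c : C N n, (∀ i, Tendsto (fun t => v t i) atTop (𝓝 (c i))) ∧ Few c ∧ Spans c ∧
        Contact Φ x c ∧ ((∀ i j, c i = c j) ∨ Flexible Φ x c) :=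
  generalR p_FLOW p_FLD I_REP p_DET p_NUL1 p_NUL2 p_NUL3 p_NUL4 p_CONV p_INTG p_RESO I_EST I_TUBE
    I_TUB4 I_NPRE I_GAPL p_ENTER p_NULG n N Φ hΦ hL

end Pool.Agent.Work.MP_c9f990_an.Al
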