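import Pool.Agent.Work.MP_c9f990_an.Al.St3

set_option autoImplicit false

/-!
# MP_c9f990_an: rigid clusters.  Definitions
-/

open MeasureTheory Set Filter Topology
open scoped NNReal ENNReal

namespace Pool.Agent.Work.MP_c9f990_an.Al

variable {N n K : ℕ}

/-- the kernel has a Lipschitz gradient -/
def LipGrad (Φ : E n → ℝ) : Prop := ∃ L : ℝ, ∀ x y, ‖fderiv ℝ Φ x - fderiv ℝ Φ y‖ ≤ L * ‖x - y‖

/-- number of agents in the cluster `a` -/
def cnt (cl : Fin N → Fin K) (a : Fin K) : ℕ := (Finset.univ.filter (fun i => cl i = a)).card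

/-- velocities which are constant on the clusters -/
def io (cl : Fin N → Fin K) (V : Fin K → E n) : C N n := fun i => V (cl i)

/-- means over the clusters -/
noncomputable def mu (cl : Fin N → Fin K) (v : C N n) : Fin K → E n :=
  fun a => (cnt cl a : ℝ)⁻¹ • ∑ i ∈ Finset.univ.filter (fun i => cl i = a), v i

/-- sum of the internal velocities -/
noncomputable def sI (cl : Fin N → Fin K) (v : C N n) : ℝ := ∑ i, ‖v i - mu cl v (cl i)‖

/-- total interaction between different clusters -/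
noncomputable def qI (Φ : E n → ℝ) (cl : Fin N → Fin K) (x : C N n) : ℝ :=
  ∑ i, ∑ j, if cl i = cl j then 0 else Φ (x i - x j)

/-- spectral gap `lam` of the interaction inside the clusters -/
def Gap (Φ : E n → ℝ) (cl : Fin N → Fin K) (lam : ℝ) (x : C N n) : Prop :=
  ∀ u : C N n, mu cl u = 0 →
    lam * ke u ≤ (2 * N : ℝ)⁻¹ * ∑ i, ∑ j, if cl i = cl j then Φ (x i - x j) * ‖u i - u j‖ ^ 2 else 0

/-- a trajectory which is good from time `0` on -/
structure GoodTraj (Φ : E n → ℝ) (cl : Fin N → Fin K) (lam R eps : ℝ) (x v : ℝ → C N n) : Prop where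
  vel : ∀ t, 0 ≤ t → ke (v t) ≤ R
  s_le : ∀ t, 0 ≤ t → sI cl (v t) ≤ eps
  s_int : ∀ T, 0 ≤ T → ∫ t in (0 : ℝ)..T, sI cl (v t) ≤ eps
  q_le : ∀ t, 0 ≤ t → qI Φ cl (x t) ≤ eps ^ 2
  q_int : ∀ T, 0 ≤ T → ∫ t in (0 : ℝ)..T, qI Φ cl (x t) ≤ eps ^ 2
  gap : ∀ t, 0 ≤ t → Gap Φ cl lam (x t)

/-- the good initial points for the flow `φ` -/
def GoodSet (Φ : E n → ℝ) (cl : Fin N → Fin K) (lam R eps : ℝ) (φ : ℝ → P N n → P N n) :
    Set (P N n) :=
  {z | GoodTraj Φ cl lam R eps (fun t => (φ t z).1) (fun t => (φ t z).2)}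

/-- `io` as a continuous linear map -/
noncomputable def ioL (cl : Fin N → Fin K) : (Fin K → E n) →L[ℝ] C N n :=
  ContinuousLinearMap.pi fun i => ContinuousLinearMap.proj (cl i)

/-- `mu` as a continuous linear map -/
noncomputable def muL (cl : Fin N → Fin K) : C N n →L[ℝ] (Fin K → E n) :=
  ContinuousLinearMap.pi fun a => (cnt cl a : ℝ)⁻¹ •
    ∑ i ∈ Finset.univ.filter (fun i => cl i = a), ContinuousLinearMap.proj i

/-- block of the derivative of the flow: positions and cluster means at time `0` to positions and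
cluster means at time `T`, the internal velocities at time `0` being fixed -/
noncomputable def Yop (cl : Fin N → Fin K) (M : P N n →L[ℝ] P N n) :
    (C N n × (Fin K → E n)) →L[ℝ] (C N n × (Fin K → E n)) :=
  ((ContinuousLinearMap.fst ℝ _ _).prod ((muL cl).comp (ContinuousLinearMap.snd ℝ _ _))).comp
    (M.comp ((ContinuousLinearMap.fst ℝ _ _).prod ((ioL cl).comp (ContinuousLinearMap.snd ℝ _ _))))

/-! ## abstract linear theory -/

/-- operators of the linearized system: `X` velocities (or positions) of all agents, `VK` cluster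
means, `io` inclusion, `mu` mean, `Lp` internal friction, `Sg` external friction, `Ge`, `Ga` external
and internal dependence on the positions -/
structure LinData (X VK : Type) [NormedAddCommGroup X] [InnerProductSpace ℝ X]
    [NormedAddCommGroup VK] [NormedSpace ℝ VK] where
  io : VK →L[ℝ] X
  mu : X →L[ℝ] VK
  Lp : ℝ → X →L[ℝ] X
  Sg : ℝ → X →L[ℝ] X
  Ge : ℝ → X →L[ℝ] X
  Ga : ℝ → X →L[ℝ] X

section Abstract

variable {X VK : Type} [NormedAddCommGroup X] [InnerProductSpace ℝ X]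
    [NormedAddCommGroup VK] [NormedSpace ℝ VK]

/-- projection to the internal velocities -/
noncomputable def LinData.om (D : LinData X VK) : X →L[ℝ] X :=
  ContinuousLinearMap.id ℝ X - D.io.comp D.mu

/-- the assumptions of the linear theory -/
structure LinOK (D : LinData X VK) (lam eta : ℝ) (q g s : ℝ → ℝ) : Prop where
  mu_io : ∀ τ, D.mu (D.io τ) = τ
  orth : ∀ x y, inner ℝ (D.io (D.mu x)) y = inner ℝ x (D.io (D.mu y))
  cLp : ContinuousOn D.Lp (Ici 0)
  cSg : ContinuousOn D.Sg (Ici 0)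
  cGe : ContinuousOn D.Ge (Ici 0)
  cGa : ContinuousOn D.Ga (Ici 0)
  sym : ∀ t, 0 ≤ t → ∀ x y, inner ℝ (D.Lp t x) y = inner ℝ x (D.Lp t y)
  Lio : ∀ t, 0 ≤ t → ∀ τ, D.Lp t (D.io τ) = 0
  gap : ∀ t, 0 ≤ t → ∀ x, D.mu x = 0 → lam * ‖x‖ ^ 2 ≤ inner ℝ (D.Lp t x) x
  muGa : ∀ t, 0 ≤ t → ∀ x, D.mu (D.Ga t x) = 0
  cq : ContinuousOn q (Ici 0)
  cg : ContinuousOn g (Ici 0)
  cs : ContinuousOn s (Ici 0)
  nSg : ∀ t, 0 ≤ t → ‖D.Sg t‖ ≤ q t
  nGe : ∀ t, 0 ≤ t → ‖D.Ge t‖ ≤ g t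
  nGa : ∀ t, 0 ≤ t → ‖D.Ga t‖ ≤ s t
  q_le : ∀ t, 0 ≤ t → q t ≤ eta
  g_le : ∀ t, 0 ≤ t → g t ≤ eta
  s_le : ∀ t, 0 ≤ t → s t ≤ eta
  q_int : ∀ T, 0 ≤ T → ∫ t in (0 : ℝ)..T, q t ≤ eta
  g_int : ∀ T, 0 ≤ T → ∫ t in (0 : ℝ)..T, g t ^ 2 ≤ eta
  s_int : ∀ T, 0 ≤ T → ∫ t in (0 : ℝ)..T, s t ≤ eta

/-- fundamental solution with internal initial velocities zero -/
structure LinSol (D : LinData X VK) (xm vm : ℝ → (X × VK) →L[ℝ] X) : Prop where
  x0 : xm 0 = ContinuousLinearMap.fst ℝ X VK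
  v0 : vm 0 = D.io.comp (ContinuousLinearMap.snd ℝ X VK)
  dx : ∀ t, 0 ≤ t → HasDerivWithinAt xm (vm t) (Ici 0) t
  dv : ∀ t, 0 ≤ t → HasDerivWithinAt vm (-(D.Lp t).comp (vm t) + (D.Sg t).comp (vm t) +
    (D.Ge t).comp (xm t) + (D.Ga t).comp (xm t)) (Ici 0) t

/-- positions and means at time `t` -/
noncomputable def Ym (D : LinData X VK) (xm vm : ℝ → (X × VK) →L[ℝ] X) (t : ℝ) :
    (X × VK) →L[ℝ] (X × VK) := (xm t).prod (D.mu.comp (vm t))

/-- generator of the reduced system -/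
noncomputable def AA (D : LinData X VK) (Rm : ℝ → (X × VK) →L[ℝ] X) (t : ℝ) :
    (X × VK) →L[ℝ] (X × VK) :=
  (D.io.comp (ContinuousLinearMap.snd ℝ X VK) + Rm t).prod
    (D.mu.comp ((D.Sg t).comp (D.io.comp (ContinuousLinearMap.snd ℝ X VK) + Rm t) +
      (D.Ge t).comp (ContinuousLinearMap.fst ℝ X VK)))

/-- the slope of the internal velocities over positions and means -/
structure SlopeOK (D : LinData X VK) (lam : ℝ) (xm vm : ℝ → (X × VK) →L[ℝ] X)
    (Rm : ℝ → (X × VK) →L[ℝ] X) : Prop where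
  R0 : Rm 0 = 0
  det0 : ∀ t, 0 ≤ t → (Ym D xm vm t).det ≠ 0
  muR : ∀ t, 0 ≤ t → ∀ y, D.mu (Rm t y) = 0
  bound : ∀ t, 0 ≤ t → ∀ y, ‖Rm t y‖ ^ 2 ≤ (lam / 16) ^ 2 * ‖y.1‖ ^ 2 + ‖D.io y.2‖ ^ 2
  cR : ContinuousOn Rm (Ici 0)
  dR : ∀ t, 0 ≤ t → HasDerivWithinAt Rm (-(D.Lp t).comp (Rm t) +
    D.om.comp ((D.Sg t).comp (D.io.comp (ContinuousLinearMap.snd ℝ X VK) + Rm t)) +
    D.om.comp ((D.Ge t).comp (ContinuousLinearMap.fst ℝ X VK)) +
    (D.Ga t).comp (ContinuousLinearMap.fst ℝ X VK) - (Rm t).comp (AA D Rm t)) (Ici 0) t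
  Y0 : (Ym D xm vm 0).det = 1
  dY : ∀ t, 0 ≤ t → HasDerivWithinAt (fun r => (Ym D xm vm r).det)
    (LinearMap.trace ℝ (X × VK) (AA D Rm t : (X × VK) →ₗ[ℝ] (X × VK)) * (Ym D xm vm t).det)
    (Ici 0) t

end Abstract

/-! ## the concrete operators -/

/-- the Hilbert space of velocities of all agents -/
abbrev XX (N n : ℕ) := PiLp 2 (fun _ : Fin N => E n)

/-- identification -/
noncomputable def toX (N n : ℕ) : C N n ≃L[ℝ] XX N n :=
  (PiLp.continuousLinearEquiv 2 ℝ (fun _ : Fin N => E n)).symm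

/-- identification as a continuous linear map -/
noncomputable def toL (N n : ℕ) : C N n →L[ℝ] XX N n := (toX N n).toContinuousLinearMap

/-- inverse identification as a continuous linear map -/
noncomputable def ofL (N n : ℕ) : XX N n →L[ℝ] C N n := (toX N n).symm.toContinuousLinearMap

/-- transport of an operator -/
noncomputable def cj (A : C N n →L[ℝ] C N n) : XX N n →L[ℝ] XX N n :=
  (toL N n).comp (A.comp (ofL N n))

/-- internal friction -/
noncomputable def LpC (Φ : E n → ℝ) (cl : Fin N → Fin K) (x : C N n) : C N n →L[ℝ] C N n :=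
  ContinuousLinearMap.pi fun i => (N : ℝ)⁻¹ • ∑ j, if cl i = cl j then
    Φ (x i - x j) • ((ContinuousLinearMap.proj i : C N n →L[ℝ] E n) - ContinuousLinearMap.proj j)
    else 0

/-- external friction -/
noncomputable def SgC (Φ : E n → ℝ) (cl : Fin N → Fin K) (x : C N n) : C N n →L[ℝ] C N n :=
  ContinuousLinearMap.pi fun i => (N : ℝ)⁻¹ • ∑ j, if cl i = cl j then 0 else
    Φ (x i - x j) • ((ContinuousLinearMap.proj j : C N n →L[ℝ] E n) - ContinuousLinearMap.proj i)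

/-- external dependence on the positions -/
noncomputable def GeC (Φ : E n → ℝ) (cl : Fin N → Fin K) (z : P N n) : C N n →L[ℝ] C N n :=
  ContinuousLinearMap.pi fun i => (N : ℝ)⁻¹ • ∑ j, if cl i = cl j then 0 else
    ((fderiv ℝ Φ (z.1 i - z.1 j)).comp
      ((ContinuousLinearMap.proj i : C N n →L[ℝ] E n) - ContinuousLinearMap.proj j)).smulRight
      (z.2 j - z.2 i)

/-- internal dependence on the positions -/
noncomputable def GaC (Φ : E n → ℝ) (cl : Fin N → Fin K) (z : P N n) : C N n →L[ℝ] C N n :=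
  ContinuousLinearMap.pi fun i => (N : ℝ)⁻¹ • ∑ j, if cl i = cl j then
    ((fderiv ℝ Φ (z.1 i - z.1 j)).comp
      ((ContinuousLinearMap.proj i : C N n →L[ℝ] E n) - ContinuousLinearMap.proj j)).smulRight
      (z.2 j - z.2 i) else 0

/-- the linear data along a curve in phase space -/
noncomputable def dat (Φ : E n → ℝ) (cl : Fin N → Fin K) (y : ℝ → P N n) :
    LinData (XX N n) (Fin K → E n) where
  io := (toL N n).comp (ioL cl)
  mu := (muL cl).comp (ofL N n)
  Lp := fun t => cj (LpC Φ cl (y t).1)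
  Sg := fun t => cj (SgC Φ cl (y t).1)
  Ge := fun t => cj (GeC Φ cl (y t))
  Ga := fun t => cj (GaC Φ cl (y t))

/-- initial perturbations without internal velocities -/
noncomputable def emb (cl : Fin N → Fin K) : (XX N n × (Fin K → E n)) →L[ℝ] P N n :=
  ((ofL N n).comp (ContinuousLinearMap.fst ℝ _ _)).prod
    ((ioL cl).comp (ContinuousLinearMap.snd ℝ _ _))

/-- position part of the derivative of the flow -/
noncomputable def xmF (cl : Fin N → Fin K) (M : ℝ → P N n → P N n →L[ℝ] P N n) (z : P N n) (t : ℝ) :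
    (XX N n × (Fin K → E n)) →L[ℝ] XX N n :=
  (toL N n).comp ((ContinuousLinearMap.fst ℝ _ _).comp ((M t z).comp (emb cl)))

/-- velocity part of the derivative of the flow -/
noncomputable def vmF (cl : Fin N → Fin K) (M : ℝ → P N n → P N n →L[ℝ] P N n) (z : P N n) (t : ℝ) :
    (XX N n × (Fin K → E n)) →L[ℝ] XX N n :=
  (toL N n).comp ((ContinuousLinearMap.snd ℝ _ _).comp ((M t z).comp (emb cl)))

end Pool.Agent.Work.MP_c9f990_an.Al
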